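import Pool.Agent.Run7.h523.KF.Iface

/-!
# Piece DUA of project KF (helper523), MP_6d896a_gt
-/

namespace Run7.h593.KF

open Run7.h523.KF

section

variable {α : Type}

open Classical in
/-- the difference along an involution -/
noncomputable def AA (O : Finset α) (s : α → α) (f : α → ℝ) (x : α) : ℝ :=
  if x ∈ O ∧ s x ∈ O then f x - f (s x) else 0

theorem AA_symm (O : Finset α) (s : α → α) (hs : ∀ x, s (s x) = x) (f g : α → ℝ) :
    ∑ x ∈ O, g x * AA O s f x = 1 / 2 * ∑ x ∈ O, AA O s g x * AA O s f x := by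
  classical
  have h1 : ∑ x ∈ O, g x * AA O s f x = ∑ x ∈ O, (-g (s x)) * AA O s f x := by
    have e1 : ∀ (h : α → ℝ), ∑ x ∈ O, h x * AA O s f x =
        ∑ x ∈ O.filter (fun x => s x ∈ O), h x * (f x - f (s x)) := by
      intro h
      rw [Finset.sum_filter]
      refine Finset.sum_congr rfl fun x hx => ?_
      unfold AA
      by_cases h1 : s x ∈ O
      · simp [hx, h1]
      · simp [h1]
    rw [e1, e1]
    refine Finset.sum_bij' (fun x _ => s x) (fun x _ => s x) ?_ ?_ ?_ ?_ ?_
    · intro x hx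
      rw [Finset.mem_filter] at hx ⊢
      exact ⟨hx.2, by rw [hs]; exact hx.1⟩
    · intro x hx
      rw [Finset.mem_filter] at hx ⊢
      exact ⟨hx.2, by rw [hs]; exact hx.1⟩
    · intro x _
      exact hs x
    · intro x _
      exact hs x
    · intro x _
      rw [hs]
      ring
  have h2 : ∑ x ∈ O, AA O s g x * AA O s f x =
      ∑ x ∈ O, g x * AA O s f x + ∑ x ∈ O, (-g (s x)) * AA O s f x := by
    rw [← Finset.sum_add_distrib]
    refine Finset.sum_congr rfl fun x _ => ?_
    unfold AA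
    by_cases h : x ∈ O ∧ s x ∈ O
    · rw [if_pos h, if_pos h]
      ring
    · rw [if_neg h, if_neg h]
      ring
  rw [h2, ← h1]
  ring

open Classical in
/-- extension by zero -/
noncomputable def ext0 (O : Finset α) : (O → ℝ) →ₗ[ℝ] (α → ℝ) where
  toFun u := fun x => if h : x ∈ O then u ⟨x, h⟩ else 0
  map_add' u v := by
    funext x
    by_cases h : x ∈ O <;> simp [h]
  map_smul' c u := by
    funext x
    by_cases h : x ∈ O <;> simp [h]

theorem ext0_mem (O : Finset α) (u : O → ℝ) (x : O) : ext0 O u x = u x := by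
  unfold ext0
  simp

/-- the difference as a linear map -/
noncomputable def AAl (O : Finset α) (s : α → α) : (α → ℝ) →ₗ[ℝ] (α → ℝ) where
  toFun f := AA O s f
  map_add' u v := by
    funext x
    unfold AA
    by_cases h : x ∈ O ∧ s x ∈ O
    · simp only [Pi.add_apply, if_pos h]
      ring
    · simp only [Pi.add_apply, if_neg h, add_zero]
  map_smul' c u := by
    funext x
    unfold AA
    by_cases h : x ∈ O ∧ s x ∈ O
    · simp only [Pi.smul_apply, if_pos h, smul_eq_mul, RingHom.id_apply]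
      ring
    · simp only [Pi.smul_apply, if_neg h, smul_eq_mul, mul_zero]

/-- the operator of the duality, plus the mean -/
noncomputable def Lt (O : Finset α) (M : ℕ) (s : ℕ → α → α) (c : ℕ → ℝ) :
    (O → ℝ) →ₗ[ℝ] (O → ℝ) where
  toFun u := fun x => ∑ j ∈ Finset.range M, c j * AAl O (s j) (ext0 O u) x +
    (∑ y, u y) / O.card
  map_add' u v := by
    funext x
    simp only [map_add, Pi.add_apply, mul_add, Finset.sum_add_distrib, add_div]
    ring
  map_smul' a u := by
    funext x
    simp only [map_smul, Pi.smul_apply, smul_eq_mul, RingHom.id_apply, mul_add,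
      Finset.mul_sum, mul_div_assoc']
    congr 1
    refine Finset.sum_congr rfl fun j _ => ?_
    ring

end

/-- duality -/
theorem t_DUA : S_DUA := by
  classical
  intro α O M s c γ hO hγ hs hc hgap hcon f
  have hcard : (0 : ℝ) < O.card := by exact_mod_cast hO.card_pos
  -- restate the hypotheses
  have hAA : ∀ (j : ℕ) (f : α → ℝ) (x : α) (inst : Decidable (x ∈ O ∧ s j x ∈ O)),
      @ite ℝ (x ∈ O ∧ s j x ∈ O) inst (f x - f (s j x)) 0 = AA O (s j) f x := by
    intro j f x inst
    unfold AA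
    by_cases h : x ∈ O ∧ s j x ∈ O
    · rw [if_pos h, if_pos h]
    · rw [if_neg h, if_neg h]
  simp only [hAA] at hgap hcon ⊢
  have hgap' := hgap
  have hcon' := hcon
  -- pairing with the operator
  have hpair : ∀ g f : α → ℝ, ∑ x ∈ O, g x * ∑ j ∈ Finset.range M, c j * AA O (s j) f x =
      1 / 2 * ∑ j ∈ Finset.range M, c j * ∑ x ∈ O, AA O (s j) g x * AA O (s j) f x := by
    intro g f
    simp only [Finset.mul_sum]
    rw [Finset.sum_comm]
    refine Finset.sum_congr rfl fun j _ => ?_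
    have h1 := AA_symm O (s j) (hs j) f g
    have h2 : ∑ x ∈ O, g x * (c j * AA O (s j) f x) = c j * ∑ x ∈ O, g x * AA O (s j) f x := by
      rw [Finset.mul_sum]
      exact Finset.sum_congr rfl fun x _ => by ring
    rw [h2, h1, Finset.mul_sum, Finset.mul_sum]
    exact Finset.sum_congr rfl fun x _ => by ring
  have hone : ∀ f : α → ℝ, ∑ x ∈ O, ∑ j ∈ Finset.range M, c j * AA O (s j) f x = 0 := by
    intro f
    have h1 := hpair (fun _ => 1) f
    simp only [one_mul] at h1
    rw [h1]
    have h2 : ∀ j x, AA O (s j) (fun _ => (1 : ℝ)) x = 0 := by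
      intro j x
      unfold AA
      simp
    simp [h2]
  -- sums over the subtype
  have hsub : ∀ g : α → ℝ, ∑ y : O, g y = ∑ x ∈ O, g x := fun g => Finset.sum_coe_sort O g
  -- injectivity
  have hinj : Function.Injective (Lt O M s c) := by
    rw [← LinearMap.ker_eq_bot, LinearMap.ker_eq_bot']
    intro u hu
    have hux : ∀ x : O, ∑ j ∈ Finset.range M, c j * AA O (s j) (ext0 O u) x +
        (∑ y, u y) / O.card = 0 := fun x => congrFun hu x
    have hmean : (∑ y, u y) = 0 := by
      have h1 : ∑ x : O, (∑ j ∈ Finset.range M, c j * AA O (s j) (ext0 O u) x +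
          (∑ y, u y) / O.card) = 0 := Finset.sum_eq_zero fun x _ => hux x
      rw [Finset.sum_add_distrib, hsub (fun x => ∑ j ∈ Finset.range M, c j *
        AA O (s j) (ext0 O u) x), hone, zero_add, Finset.sum_const, Finset.card_univ,
        Fintype.card_coe, nsmul_eq_mul] at h1
      field_simp at h1
      exact h1
    have hL : ∀ x ∈ O, ∑ j ∈ Finset.range M, c j * AA O (s j) (ext0 O u) x = 0 := by
      intro x hx
      have := hux ⟨x, hx⟩
      rw [hmean, zero_div, add_zero] at this
      exact this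
    have hE : ∑ j ∈ Finset.range M, c j * ∑ x ∈ O, AA O (s j) (ext0 O u) x ^ 2 = 0 := by
      have h1 := hpair (ext0 O u) (ext0 O u)
      have h2 : ∑ x ∈ O, ext0 O u x * ∑ j ∈ Finset.range M, c j * AA O (s j) (ext0 O u) x
          = 0 := Finset.sum_eq_zero fun x hx => by rw [hL x hx, mul_zero]
      rw [h2] at h1
      have h3 : ∑ j ∈ Finset.range M, c j *
          ∑ x ∈ O, AA O (s j) (ext0 O u) x * AA O (s j) (ext0 O u) x =
          ∑ j ∈ Finset.range M, c j * ∑ x ∈ O, AA O (s j) (ext0 O u) x ^ 2 := by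
        refine Finset.sum_congr rfl fun j _ => ?_
        congr 1
        exact Finset.sum_congr rfl fun x _ => by ring
      rw [h3] at h1
      linarith
    have hA0 : ∀ j < M, ∀ x ∈ O, AA O (s j) (ext0 O u) x = 0 := by
      intro j hj x hx
      have hnn : ∀ i ∈ Finset.range M, 0 ≤ c i * ∑ x ∈ O, AA O (s i) (ext0 O u) x ^ 2 :=
        fun i hi => mul_nonneg (hc i (Finset.mem_range.1 hi)).le
          (Finset.sum_nonneg fun _ _ => sq_nonneg _)
      have h1 := (Finset.sum_eq_zero_iff_of_nonneg hnn).1 hE j (Finset.mem_range.2 hj)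
      rcases mul_eq_zero.1 h1 with h2 | h2
      · exact absurd h2 (hc j hj).ne'
      · have h3 := (Finset.sum_eq_zero_iff_of_nonneg fun x _ => sq_nonneg
          (AA O (s j) (ext0 O u) x)).1 h2 x hx
        exact pow_eq_zero_iff (two_ne_zero) |>.1 h3
    have hconst := hcon' (ext0 O u) hA0
    obtain ⟨x0, hx0⟩ := hO
    have hall : ∀ y : O, u y = u ⟨x0, hx0⟩ := by
      intro y
      have := hconst y y.2 x0 hx0
      rw [ext0_mem] at this
      have h2 := ext0_mem O u ⟨x0, hx0⟩
      rw [this, ← h2]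
    have h4 : (O.card : ℝ) * u ⟨x0, hx0⟩ = 0 := by
      have : ∑ y, u y = (O.card : ℝ) * u ⟨x0, hx0⟩ := by
        rw [Finset.sum_congr rfl fun y _ => hall y, Finset.sum_const, Finset.card_univ,
          Fintype.card_coe, nsmul_eq_mul]
      rw [← this, hmean]
    have h5 : u ⟨x0, hx0⟩ = 0 := by
      rcases mul_eq_zero.1 h4 with h | h
      · exact absurd h hcard.ne'
      · exact h
    funext y
    rw [hall y, h5]
    rfl
  have hsurj := LinearMap.injective_iff_surjective.1 hinj
  -- the solution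
  obtain ⟨m, hm⟩ : ∃ m, m = (∑ x ∈ O, f x) / O.card := ⟨_, rfl⟩
  have hf0sum : ∑ x ∈ O, (f x - m) = 0 := by
    rw [Finset.sum_sub_distrib, Finset.sum_const, nsmul_eq_mul, hm]
    field_simp
    ring
  obtain ⟨u, hu⟩ := hsurj (fun x : O => f x - m)
  have hux : ∀ x : O, ∑ j ∈ Finset.range M, c j * AA O (s j) (ext0 O u) x +
      (∑ y, u y) / O.card = f x - m := fun x => congrFun hu x
  have hmean : (∑ y, u y) = 0 := by
    have h1 : ∑ x : O, (∑ j ∈ Finset.range M, c j * AA O (s j) (ext0 O u) x +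
        (∑ y, u y) / O.card) = ∑ x : O, (f x - m) := Finset.sum_congr rfl fun x _ => hux x
    rw [Finset.sum_add_distrib, hsub (fun x => ∑ j ∈ Finset.range M, c j *
      AA O (s j) (ext0 O u) x), hone, zero_add, Finset.sum_const, Finset.card_univ,
      Fintype.card_coe, nsmul_eq_mul, hsub (fun x => f x - m), hf0sum] at h1
    field_simp at h1
    exact h1
  have hL : ∀ x ∈ O, ∑ j ∈ Finset.range M, c j * AA O (s j) (ext0 O u) x = f x - m := by
    intro x hx
    have := hux ⟨x, hx⟩
    rw [hmean, zero_div, add_zero] at this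
    exact this
  -- the estimate
  obtain ⟨X, hX⟩ : ∃ X, X = ∑ x ∈ O, (f x - m) ^ 2 := ⟨_, rfl⟩
  obtain ⟨Ef, hEf⟩ : ∃ E, E = ∑ j ∈ Finset.range M, c j * ∑ x ∈ O, AA O (s j) f x ^ 2 := ⟨_, rfl⟩
  obtain ⟨Eu, hEu⟩ : ∃ E, E = ∑ j ∈ Finset.range M, c j *
    ∑ x ∈ O, AA O (s j) (ext0 O u) x ^ 2 := ⟨_, rfl⟩
  have hXEu : γ * Eu ≤ X := by
    have h1 := hgap' (ext0 O u)
    rw [← hEu] at h1
    refine h1.trans (le_of_eq ?_)
    rw [hX]
    exact Finset.sum_congr rfl fun x hx => by rw [hL x hx]
  have hAf : ∀ j x, AA O (s j) (fun x => f x - m) x = AA O (s j) f x := by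
    intro j x
    unfold AA
    by_cases h : x ∈ O ∧ s j x ∈ O
    · rw [if_pos h, if_pos h]
      ring
    · rw [if_neg h, if_neg h]
  have hX2 : X = 1 / 2 * ∑ j ∈ Finset.range M, c j *
      ∑ x ∈ O, AA O (s j) f x * AA O (s j) (ext0 O u) x := by
    have h1 := hpair (fun x => f x - m) (ext0 O u)
    simp only [hAf] at h1
    rw [← h1, hX]
    refine Finset.sum_congr rfl fun x hx => ?_
    rw [hL x hx]
    ring
  have hbound : ∑ j ∈ Finset.range M, c j *
      ∑ x ∈ O, AA O (s j) f x * AA O (s j) (ext0 O u) x ≤ 1 / (4 * γ) * Ef + γ * Eu := by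
    rw [hEf, hEu, Finset.mul_sum, Finset.mul_sum, ← Finset.sum_add_distrib]
    refine Finset.sum_le_sum fun j hj => ?_
    have hcj := hc j (Finset.mem_range.1 hj)
    have h1 : ∑ x ∈ O, AA O (s j) f x * AA O (s j) (ext0 O u) x ≤
        1 / (4 * γ) * ∑ x ∈ O, AA O (s j) f x ^ 2 +
          γ * ∑ x ∈ O, AA O (s j) (ext0 O u) x ^ 2 := by
      rw [Finset.mul_sum, Finset.mul_sum, ← Finset.sum_add_distrib]
      refine Finset.sum_le_sum fun x _ => ?_
      have h2 : 0 ≤ 1 / (4 * γ) * (AA O (s j) f x - 2 * γ * AA O (s j) (ext0 O u) x) ^ 2 := by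
        positivity
      have h3 : 1 / (4 * γ) * (AA O (s j) f x - 2 * γ * AA O (s j) (ext0 O u) x) ^ 2 =
          1 / (4 * γ) * AA O (s j) f x ^ 2 + γ * AA O (s j) (ext0 O u) x ^ 2 -
            AA O (s j) f x * AA O (s j) (ext0 O u) x := by
        field_simp
        ring
      linarith
    have h4 := mul_le_mul_of_nonneg_left h1 hcj.le
    refine h4.trans (le_of_eq ?_)
    ring
  have hXfin : X ≤ 1 / (4 * γ) * Ef := by
    have : 2 * X ≤ 1 / (4 * γ) * Ef + γ * Eu := by
      rw [hX2]
      linarith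
    linarith
  have hXval : X = ∑ x ∈ O, f x ^ 2 - (∑ x ∈ O, f x) ^ 2 / O.card := by
    rw [hX]
    have h1 : ∑ x ∈ O, (f x - m) ^ 2 =
        ∑ x ∈ O, f x ^ 2 - 2 * m * ∑ x ∈ O, f x + O.card * m ^ 2 := by
      have : ∀ x, (f x - m) ^ 2 = f x ^ 2 - 2 * m * f x + m ^ 2 := fun x => by ring
      rw [Finset.sum_congr rfl fun x _ => this x, Finset.sum_add_distrib,
        Finset.sum_sub_distrib, ← Finset.mul_sum, Finset.sum_const, nsmul_eq_mul]
    rw [h1, hm]
    field_simp
    ring
  rw [← hXval, ← hEf]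
  exact hXfin

end Run7.h593.KF
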