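import Pool.Agent.Run7.h523.KF.Iface

/-!
# Piece SUP1 of project KF (helper523), MP_6d896a_gt
-/

namespace Run7.h593.KF

open Run7.h523.KF

/-- the cosine supersolution -/
theorem t_SUP1 : S_SUP1 := by
  intro M hM
  have hM0 : (0 : ℝ) < M := by exact_mod_cast hM
  have hpi := Real.pi_pos
  refine ⟨fun j _ => one_pos, ?_, ?_, ?_, ?_⟩
  · intro j hj
    apply Real.cos_pos_of_mem_Ioo
    constructor
    · have : 0 ≤ Real.pi * j / (2 * M) := by positivity
      linarith
    · rw [div_lt_div_iff₀ (by positivity) (by norm_num)]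
      have hj' : (j : ℝ) < M := by exact_mod_cast hj
      nlinarith
  · have : Real.pi * M / (2 * M) = Real.pi / 2 := by
      field_simp
    show 0 ≤ Real.cos (Real.pi * M / (2 * M))
    rw [this, Real.cos_pi_div_two]
  · show 2 * (1 - Real.cos (Real.pi / (2 * M))) * Real.cos (Real.pi * (0 : ℕ) / (2 * M)) ≤
      1 * (2 * Real.cos (Real.pi * (0 : ℕ) / (2 * M)) - 2 * Real.cos (Real.pi * (1 : ℕ) / (2 * M)))
    apply le_of_eq
    simp
    ring
  · intro j _
    show 2 * (1 - Real.cos (Real.pi / (2 * M))) * Real.cos (Real.pi * ((j + 1 : ℕ) : ℝ) / (2 * M)) ≤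
      1 * (2 * Real.cos (Real.pi * ((j + 1 : ℕ) : ℝ) / (2 * M)) -
        Real.cos (Real.pi * ((j + 2 : ℕ) : ℝ) / (2 * M)) - Real.cos (Real.pi * (j : ℝ) / (2 * M)))
    have e1 : Real.pi * ((j + 2 : ℕ) : ℝ) / (2 * M) =
        Real.pi * ((j + 1 : ℕ) : ℝ) / (2 * M) + Real.pi / (2 * M) := by
      push_cast
      field_simp
      ring
    have e2 : Real.pi * (j : ℝ) / (2 * M) =
        Real.pi * ((j + 1 : ℕ) : ℝ) / (2 * M) - Real.pi / (2 * M) := by
      push_cast
      field_simp
      ring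
    rw [e1, e2, Real.cos_add, Real.cos_sub]
    apply le_of_eq
    ring

end Run7.h593.KF
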