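import Pool.Agent.Run7.h523.KF.Iface

/-!
# Piece SUP2 of project KF (helper523), MP_6d896a_gt
-/

namespace Run7.h593.KF

open Run7.h523.KF

/-- the inequality for three consecutive values of the square root -/
theorem sup2_core (y d q r A B : ℝ) (hy : 0 ≤ y) (hd : 0 < d) (hd2 : d ≤ 1 / 2)
    (hyd : y + d ≤ 1) (hq : q = 1 - y ^ 2) (hr : 0 ≤ r) (hr2 : r ^ 2 = q) (hA : 0 ≤ A)
    (hB : 0 ≤ B) (hA2 : A ^ 2 = q - d ^ 2 - 2 * y * d) (hB2 : B ^ 2 = q - d ^ 2 + 2 * y * d) :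
    d ^ 2 * r ≤ q ^ 2 * (2 * r - A - B) := by
  have hqd : 3 / 2 * d ≤ q := by
    rw [hq]
    nlinarith
  have hq0 : 0 < q := by linarith
  have hq1 : q ≤ 1 := by rw [hq]; nlinarith [sq_nonneg y]
  obtain ⟨s, hs⟩ : ∃ s, s = d ^ 2 / q ^ 2 := ⟨_, rfl⟩
  have hsd : d ^ 2 = s * q ^ 2 := by rw [hs]; field_simp
  have hs0 : 0 ≤ s := by rw [hs]; positivity
  have hs1 : s ≤ 4 / 9 := by
    rw [hs, div_le_div_iff₀ (by positivity) (by norm_num)]
    nlinarith [sq_nonneg (q - 3 / 2 * d)]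
  have hy2 : y ^ 2 = 1 - q := by rw [hq]; ring
  obtain ⟨T, hT⟩ : ∃ T, T = q * (1 - 2 * s + s ^ 2 / 2 + s * q) := ⟨_, rfl⟩
  have hT0 : 0 ≤ T := by
    rw [hT]
    apply mul_nonneg hq0.le
    nlinarith [mul_nonneg hs0 hq0.le, sq_nonneg s]
  have hAB2 : (A * B) ^ 2 = (q - d ^ 2) ^ 2 - 4 * (1 - q) * d ^ 2 := by
    rw [mul_pow, hA2, hB2, ← hy2]
    ring
  have hdiff : T ^ 2 - (A * B) ^ 2 = s ^ 2 * q ^ 2 * ((1 - s / 2) ^ 2 + (1 - q) * (4 - s)) := by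
    rw [hAB2, hsd, hT]
    ring
  have hAB : A * B ≤ T := by
    refine (le_abs_self _).trans (abs_le_of_sq_le_sq ?_ hT0)
    have : 0 ≤ s ^ 2 * q ^ 2 * ((1 - s / 2) ^ 2 + (1 - q) * (4 - s)) := by
      apply mul_nonneg (by positivity)
      have : 0 ≤ (1 - q) * (4 - s) := mul_nonneg (by linarith) (by linarith)
      positivity
    linarith
  have hR0 : 0 ≤ 2 * r * (1 - s / 2) := mul_nonneg (by positivity) (by linarith)
  have hsum : A + B ≤ 2 * r * (1 - s / 2) := by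
    refine (le_abs_self _).trans (abs_le_of_sq_le_sq ?_ hR0)
    have e1 : (A + B) ^ 2 = 2 * (q - d ^ 2) + 2 * (A * B) := by
      have : (A + B) ^ 2 = A ^ 2 + B ^ 2 + 2 * (A * B) := by ring
      rw [this, hA2, hB2]
      ring
    have e2 : (2 * r * (1 - s / 2)) ^ 2 = 4 * q * (1 - s / 2) ^ 2 := by
      rw [← hr2]
      ring
    have e3 : 4 * q * (1 - s / 2) ^ 2 - 2 * (q - d ^ 2) = 2 * T := by
      rw [hT, hsd]
      ring
    rw [e1, e2]
    linarith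
  have e4 : d ^ 2 * r = q ^ 2 * (2 * r - 2 * r * (1 - s / 2)) := by
    rw [hsd]
    ring
  rw [e4]
  apply mul_le_mul_of_nonneg_left _ (by positivity)
  linarith

/-- the supersolution for the weight `(1 - y²)²` -/
theorem t_SUP2 : S_SUP2 := by
  intro M hM
  have hM2 : (2 : ℝ) ≤ M := by exact_mod_cast hM
  have hM0 : (0 : ℝ) < M := by linarith
  have hpos : ∀ j : ℕ, j < M → 0 < 1 - ((j : ℝ) / M) ^ 2 := by
    intro j hj
    have h1 : (j : ℝ) / M < 1 := by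
      rw [div_lt_one hM0]
      exact_mod_cast hj
    have h0 : 0 ≤ (j : ℝ) / M := by positivity
    nlinarith
  refine ⟨fun j hj => ?_, fun j hj => ?_, Real.sqrt_nonneg _, ?_, ?_⟩
  · have := hpos j hj
    positivity
  · exact Real.sqrt_pos.2 (hpos j hj)
  · show 2 * (1 / (2 * (M : ℝ) ^ 2)) * Real.sqrt (1 - (((0 : ℕ) : ℝ) / M) ^ 2) ≤
      (1 - (((0 : ℕ) : ℝ) / M) ^ 2) ^ 2 * (2 * Real.sqrt (1 - (((0 : ℕ) : ℝ) / M) ^ 2) -
        2 * Real.sqrt (1 - (((1 : ℕ) : ℝ) / M) ^ 2))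
    have e0 : (1 : ℝ) - (((0 : ℕ) : ℝ) / M) ^ 2 = 1 := by simp
    rw [e0, Real.sqrt_one]
    have hd0 : (0 : ℝ) ≤ 1 / M := by positivity
    have hd1 : (1 : ℝ) / M ≤ 1 / 2 := by
      rw [div_le_div_iff₀ hM0 (by norm_num)]
      linarith
    have h1 : Real.sqrt (1 - (((1 : ℕ) : ℝ) / M) ^ 2) ≤ 1 - (1 / M) ^ 2 / 2 := by
      rw [Real.sqrt_le_left (by nlinarith)]
      push_cast
      nlinarith [sq_nonneg (((1 : ℝ) / M) ^ 2)]
    have e2 : 2 * (1 / (2 * (M : ℝ) ^ 2)) = (1 / M) ^ 2 := by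
      field_simp
    rw [e2]
    nlinarith
  · intro j hj
    have h := sup2_core (((j + 1 : ℕ) : ℝ) / M) (1 / M) (1 - (((j + 1 : ℕ) : ℝ) / M) ^ 2)
      (Real.sqrt (1 - (((j + 1 : ℕ) : ℝ) / M) ^ 2))
      (Real.sqrt (1 - (((j + 2 : ℕ) : ℝ) / M) ^ 2))
      (Real.sqrt (1 - ((j : ℝ) / M) ^ 2)) (by positivity) (by positivity)
      (by
        rw [div_le_div_iff₀ hM0 (by norm_num)]
        linarith)
      (by
        rw [← add_div, div_le_one hM0]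
        have : ((j + 1 : ℕ) : ℝ) + 1 ≤ M := by exact_mod_cast hj
        exact this)
      rfl (Real.sqrt_nonneg _) (Real.sq_sqrt (hpos (j + 1) hj).le) (Real.sqrt_nonneg _)
      (Real.sqrt_nonneg _)
      (by
        rw [Real.sq_sqrt]
        · push_cast
          ring
        · have h1 : ((j + 2 : ℕ) : ℝ) / M ≤ 1 := by
            rw [div_le_one hM0]
            exact_mod_cast hj
          have h0 : 0 ≤ ((j + 2 : ℕ) : ℝ) / M := by positivity
          nlinarith)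
      (by
        rw [Real.sq_sqrt (hpos j (by omega)).le]
        push_cast
        ring)
    have e2 : 2 * (1 / (2 * (M : ℝ) ^ 2)) = (1 / M) ^ 2 := by
      field_simp
    show 2 * (1 / (2 * (M : ℝ) ^ 2)) * Real.sqrt (1 - (((j + 1 : ℕ) : ℝ) / M) ^ 2) ≤ _
    rw [e2]
    exact h

end Run7.h593.KF
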